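import Pool.Agent.H11.NZ.Targets

/-!
# Module B1X of the board nz_modules (adapted from module B1 of ny_modules by helper85)
-/

set_option autoImplicit false

open Equiv (Perm)

namespace Pool.Agent.H86.NZ.B1X

open Pool.Agent.H11.NY Pool.Agent.H11.NZ

/-- the elements commuting with `M` modulo `N` -/
def CM {L : Type} [Group L] (M N : Subgroup L) [N.Normal] : Subgroup L :=
  (Subgroup.centralizer (M.map (QuotientGroup.mk' N) : Set (L ⧸ N))).comap (QuotientGroup.mk' N)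

lemma mem_CM {L : Type} [Group L] (M N : Subgroup L) [N.Normal] (y : L) :
    y ∈ CM M N ↔ ∀ x ∈ M, y * x * y⁻¹ * x⁻¹ ∈ N := by
  unfold CM
  rw [Subgroup.mem_comap, Subgroup.mem_centralizer_iff]
  constructor
  · intro h x hx
    have h1 := h (QuotientGroup.mk' N x) (Subgroup.mem_map_of_mem _ hx)
    rw [← QuotientGroup.ker_mk' N, MonoidHom.mem_ker]
    simp only [map_mul, map_inv]
    rw [← h1]
    group
  · rintro h _ ⟨x, hx, rfl⟩
    have h1 := h x hx
    rw [← QuotientGroup.ker_mk' N, MonoidHom.mem_ker] at h1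
    simp only [map_mul, map_inv] at h1
    rw [mul_inv_eq_one, mul_inv_eq_iff_eq_mul] at h1
    exact h1.symm

lemma CM_normal {L : Type} [Group L] (M N : Subgroup L) [N.Normal] (hM : M.Normal) :
    (CM M N).Normal := by
  have : (M.map (QuotientGroup.mk' N)).Normal :=
    hM.map _ (QuotientGroup.mk'_surjective N)
  unfold CM
  infer_instance

/-- the three subgroups lemma modulo `N`, for a perfect subgroup `X` -/
lemma three {L : Type} [Group L] (X : Subgroup L) (hL : ⁅X, X⁆ = X) (M N : Subgroup L)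
    (hN : N.Normal)
    (h : ∀ x ∈ M, ∀ y ∈ X, ∀ z ∈ X,
      z * (y * x * y⁻¹ * x⁻¹) * z⁻¹ * (y * x * y⁻¹ * x⁻¹)⁻¹ ∈ N) :
    ∀ x ∈ M, ∀ y ∈ X, y * x * y⁻¹ * x⁻¹ ∈ N := by
  set π := QuotientGroup.mk' N with hπ
  have htop : ⁅X.map π, X.map π⁆ = X.map π := by
    rw [← Subgroup.map_commutator, hL]
  have key : ⁅⁅X.map π, M.map π⁆, X.map π⁆ = ⊥ := by
    rw [eq_bot_iff, Subgroup.commutator_le]
    rintro u hu _ ⟨z, hz, rfl⟩
    rw [Subgroup.mem_bot, commutatorElement_def]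
    have hc : ⁅X.map π, M.map π⁆ ≤ Subgroup.centralizer {π z} := by
      rw [Subgroup.commutator_le]
      rintro _ ⟨y, hy, rfl⟩ _ ⟨x, hx, rfl⟩
      have h1 := h x hx y hy z hz
      rw [← QuotientGroup.ker_mk' N, MonoidHom.mem_ker] at h1
      rw [Subgroup.mem_centralizer_singleton_iff, commutatorElement_def]
      have e : π (z * (y * x * y⁻¹ * x⁻¹) * z⁻¹ * (y * x * y⁻¹ * x⁻¹)⁻¹) =
          π z * (π y * π x * (π y)⁻¹ * (π x)⁻¹) * (π z)⁻¹ *
            (π y * π x * (π y)⁻¹ * (π x)⁻¹)⁻¹ := by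
        simp only [map_mul, map_inv]
      rw [e, mul_inv_eq_one, mul_inv_eq_iff_eq_mul] at h1
      first
        | exact h1
        | exact h1.symm
    have h2 := Subgroup.mem_centralizer_singleton_iff.mp (hc hu)
    rw [h2]
    group
  have h3 : ⁅⁅X.map π, X.map π⁆, M.map π⁆ = ⊥ := by
    refine Subgroup.commutator_commutator_eq_bot_of_rotate key ?_
    rw [Subgroup.commutator_comm (M.map π) (X.map π)]
    exact key
  rw [htop] at h3
  intro x hx y hy
  have h4 : π y * π x * (π y)⁻¹ * (π x)⁻¹ ∈ ⁅X.map π, M.map π⁆ :=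
    Subgroup.commutator_mem_commutator (Subgroup.mem_map_of_mem _ hy)
      (Subgroup.mem_map_of_mem _ hx)
  rw [h3, Subgroup.mem_bot] at h4
  rw [← QuotientGroup.ker_mk' N, MonoidHom.mem_ker]
  simp only [map_mul, map_inv]
  exact h4

section

variable {L K V : Type} [Group L] [Field K] [AddCommGroup V] [Module K V]
  (ρ : L →* Module.End K V)

lemma ρ_inv_cancel (x : L) (v : V) : ρ x⁻¹ (ρ x v) = v := by
  rw [← Module.End.mul_apply, ← map_mul, inv_mul_cancel, map_one]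
  rfl

lemma ρ_cancel_inv (x : L) (v : V) : ρ x (ρ x⁻¹ v) = v := by
  rw [← Module.End.mul_apply, ← map_mul, mul_inv_cancel, map_one]
  rfl

/-- the elements of `M` acting by scalars -/
def SM (M : Subgroup L) (hV : ∃ v : V, v ≠ 0) : Subgroup L where
  carrier := {x | x ∈ M ∧ ∃ z : K, ∀ v : V, ρ x v = z • v}
  one_mem' := ⟨M.one_mem, 1, fun v => by rw [map_one, one_smul]; rfl⟩
  mul_mem' := by
    rintro x y ⟨hx, zx, h1⟩ ⟨hy, zy, h2⟩
    exact ⟨M.mul_mem hx hy, zx * zy, fun v => by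
      rw [map_mul, Module.End.mul_apply, h2, h1, smul_smul]⟩
  inv_mem' := by
    rintro x ⟨hx, z, h1⟩
    refine ⟨M.inv_mem hx, z⁻¹, fun v => ?_⟩
    have hz : z ≠ 0 := by
      rintro rfl
      obtain ⟨v0, hv0⟩ := hV
      have h2 := ρ_inv_cancel ρ x v0
      rw [h1, zero_smul, map_zero] at h2
      exact hv0 h2.symm
    have h2 := ρ_inv_cancel ρ x v
    rw [h1, map_smul] at h2
    rw [← h2, smul_smul, inv_mul_cancel₀ hz, one_smul, h2]

lemma mem_SM (M : Subgroup L) (hV : ∃ v : V, v ≠ 0) (x : L) :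
    x ∈ SM ρ M hV ↔ x ∈ M ∧ ∃ z : K, ∀ v : V, ρ x v = z • v := Iff.rfl

lemma SM_normal (M : Subgroup L) (hM : M.Normal) (hV : ∃ v : V, v ≠ 0) : (SM ρ M hV).Normal := by
  constructor
  rintro x ⟨hx, z, hz⟩ y
  refine ⟨hM.conj_mem x hx y, z, fun v => ?_⟩
  rw [map_mul, map_mul, Module.End.mul_apply, Module.End.mul_apply, hz, map_smul,
    ρ_cancel_inv ρ y v]

/-- the kernel of `ρ` in terms of commuting operators -/
lemma comm_ker (x y : L) : ρ x * ρ y = ρ y * ρ x ↔ x * y * x⁻¹ * y⁻¹ ∈ ρ.ker := by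
  rw [MonoidHom.mem_ker]
  constructor
  · intro h
    rw [map_mul, map_mul, map_mul, h, mul_assoc (ρ y), ← map_mul, mul_inv_cancel, map_one,
      mul_one, ← map_mul, mul_inv_cancel, map_one]
  · intro h
    have e : x * y = (x * y * x⁻¹ * y⁻¹) * (y * x) := by group
    rw [← map_mul, e, map_mul, h, one_mul, map_mul]

end

theorem pf_b1x : T_XP → T_XC → T_B1X := by
  intro hXP hXC L Ω _ _ _ _ ψ X h5 hX K V _ _ _ _ _ ρ hV hab M hM hMk hnS hmin hMM0
  have hMX : M ≤ X := fun x hx => (hMk hx).2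
  set Z := SM ρ M hV with hZ
  have hZn : Z.Normal := SM_normal ρ M hM hV
  have hZM : Z ≤ M := fun x hx => hx.1
  have hZmem : ∀ x ∈ M, x ∈ Z ↔ ∃ z : K, ∀ v : V, ρ x v = z • v := fun x hx =>
    ⟨fun h => h.2, fun h => ⟨hx, h⟩⟩
  have hMM : ∀ x ∈ M, ∀ y ∈ M, x * y * x⁻¹ * y⁻¹ ∈ Z := by
    intro x hx y hy
    have h1 : ⁅M, M⁆ < M := lt_of_le_of_ne (Subgroup.commutator_le_left M M) hMM0
    have h2 : x * y * x⁻¹ * y⁻¹ ∈ ⁅M, M⁆ := Subgroup.commutator_mem_commutator hx hy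
    exact ⟨h1.le h2, hmin _ (Subgroup.commutator_normal M M) h1 _ h2⟩
  -- an element of prime order modulo `Z`
  obtain ⟨x0, hx0, hx0Z⟩ : ∃ x ∈ M, x ∉ Z := by
    by_contra hcon
    push Not at hcon
    exact hnS fun x hx => (hcon x hx).2
  set π := QuotientGroup.mk' Z with hπ
  have hπZ : ∀ x, π x = 1 ↔ x ∈ Z := fun x => by
    rw [← MonoidHom.mem_ker, QuotientGroup.ker_mk']
  obtain ⟨r, hr, y0, hy0, hy0Z, hy0r⟩ : ∃ r : ℕ, r.Prime ∧ ∃ y ∈ M, y ∉ Z ∧ y ^ r ∈ Z := by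
    have hfin : Finite (L ⧸ Z) := inferInstance
    have h1 : orderOf (π x0) ≠ 1 := by
      rw [Ne, orderOf_eq_one_iff, hπZ]
      exact hx0Z
    have h2 : 0 < orderOf (π x0) := orderOf_pos _
    obtain ⟨r, hr, hrd⟩ := Nat.exists_prime_and_dvd h1
    obtain ⟨k, hk⟩ := hrd
    refine ⟨r, hr, x0 ^ k, M.pow_mem hx0 k, ?_, ?_⟩
    · intro hc
      rw [← hπZ, map_pow] at hc
      have h3 := Nat.le_of_dvd ?_ (orderOf_dvd_of_pow_eq_one hc)
      · rw [hk] at h3 h2
        have h4 := hr.two_le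
        have h5 : 0 < k := Nat.pos_of_ne_zero fun h => by rw [h] at h2; simp at h2
        nlinarith
      · exact Nat.pos_of_ne_zero fun h => by rw [hk, h] at h2; simp at h2
    · rw [← hπZ, map_pow, map_pow, ← pow_mul, mul_comm k r, ← hk, pow_orderOf_eq_one]
  have hcomm : ∀ x ∈ M, ∀ y ∈ M, Commute (π x) (π y) := by
    intro x hx y hy
    have h1 := (hπZ _).mpr (hMM x hx y hy)
    simp only [map_mul, map_inv] at h1
    rw [mul_inv_eq_one, mul_inv_eq_iff_eq_mul] at h1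
    exact h1
  let Mr : Subgroup L :=
    { carrier := {x | x ∈ M ∧ π x ^ r = 1}
      one_mem' := ⟨M.one_mem, by rw [map_one, one_pow]⟩
      mul_mem' := by
        rintro x y ⟨hx, hx1⟩ ⟨hy, hy1⟩
        exact ⟨M.mul_mem hx hy, by rw [map_mul, (hcomm x hx y hy).mul_pow, hx1, hy1, one_mul]⟩
      inv_mem' := by
        rintro x ⟨hx, hx1⟩
        exact ⟨M.inv_mem hx, by rw [map_inv, inv_pow, hx1, inv_one]⟩ }
  have hMrn : Mr.Normal := by
    constructor
    rintro x ⟨hx, hx1⟩ y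
    refine ⟨hM.conj_mem x hx y, ?_⟩
    rw [map_mul, map_mul, map_inv, conj_pow, hx1, mul_one, mul_inv_cancel]
  have hMrM : Mr ≤ M := fun x hx => hx.1
  have hMr : Mr = M := by
    by_contra hne
    have h1 := hmin Mr hMrn (lt_of_le_of_ne hMrM hne) y0 ⟨hy0, by rw [← map_pow, hπZ]; exact hy0r⟩
    exact hy0Z ⟨hy0, h1⟩
  have hpow : ∀ x ∈ M, x ^ r ∈ Z := by
    intro x hx
    rw [← hMr] at hx
    rw [← hπZ, map_pow]
    exact hx.2
  -- the elements of `M` commuting with `M`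
  have hZ1 : ∀ x ∈ M, (∀ y ∈ M, ρ x * ρ y = ρ y * ρ x) → x ∈ Z := by
    intro x hx hxy
    have h1 : (M ⊓ CM M ρ.ker).Normal := by
      have := CM_normal M ρ.ker hM
      infer_instance
    have h2 : M ⊓ CM M ρ.ker ≤ X := inf_le_left.trans hMX
    refine ⟨hx, hab _ h1 h2 ?_ x ⟨hx, (mem_CM M ρ.ker x).mpr ?_⟩⟩
    · intro u hu w hw
      rw [comm_ker]
      exact (mem_CM M ρ.ker u).mp hu.2 w hw.1
    · intro y hy
      rw [← comm_ker]
      exact hxy y hy
  refine ⟨Z, r, hr, hZn, hZM, hZmem, hMM, hpow, hZ1, ?_⟩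
  intro y hy
  by_contra hψy
  have hC : X ≤ CM M Z :=
    hXC L Ω ψ X h5 hX (CM M Z) (fun x _ c hc => (CM_normal M Z hM).conj_mem c hc x)
      ⟨y, (mem_CM M Z y).mpr hy, hψy⟩
  have hZc : ∀ z ∈ Z, ∀ x : L, ρ x * ρ z = ρ z * ρ x := by
    rintro z ⟨_, t, ht⟩ x
    apply LinearMap.ext
    intro v
    rw [Module.End.mul_apply, Module.End.mul_apply, ht, ht, map_smul]
  have h3 := three X (hXP L Ω ψ X h5 hX) M ρ.ker inferInstance (fun x hx y hy z _ => by
    have h5 := (mem_CM M Z y).mp (hC hy) x hx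
    rw [← comm_ker]
    exact hZc _ h5 z)
  apply hnS
  refine hab M hM hMX ?_
  intro x hx y hy
  exact (comm_ker ρ x y).mpr (h3 y hy x (hMX hx))

end Pool.Agent.H86.NZ.B1X
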