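import Pool.Agent.H11.NZ.Targets

set_option autoImplicit false

open Equiv (Perm)

namespace Pool.Agent.H86.NZ.DSL

open Pool.Agent.H11.NY Pool.Agent.H11.NZ

theorem pf_dsl : T_SEL → T_MV → T_DSL := by
  intro hSEL hMV e n
  obtain ⟨m, hm⟩ := hSEL e n
  obtain ⟨B, hB⟩ := hMV m
  refine ⟨B, ?_⟩
  intro L Ω I _ _ _ _ _ _ _ ψ X hX htr hmove q s a h hq hqe hs hse haq hhs hah t ht hsup
  let f : L →* Perm I := MulAction.toPermHom L I
  have hf : ∀ (x : L) (i : I), f x i = x • i := fun x i => rfl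
  obtain ⟨ω, hω1, hω2⟩ := hm I (f a) (f h) q s hq hqe hs hse (by rw [← map_pow, haq, map_one])
    (by rw [← map_pow, hhs, map_one]) (by rw [← map_mul, hah, map_mul]) (fun l => f (t l)) (by
      intro l
      have h1 := hB L Ω I ψ X hX htr hmove (t l) (hsup l)
      refine h1.trans (Finset.card_le_card ?_)
      intro i hi
      rw [Finset.mem_filter] at hi
      rw [Equiv.Perm.mem_support]
      exact hi.2)
  have hω1' : ∀ l, t l • ω l ≠ ω l := fun l => hω1 l
  have hω2' : ∀ i j, i ≠ j → ∀ k l : ℕ, (a ^ k * h ^ l) • ω j ≠ ω i := by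
    intro i j hij k l h1
    apply hω2 i j hij k l
    rw [← map_pow, ← map_pow, ← map_mul]
    exact h1
  have hcm : Commute a h := hah
  refine ⟨ω, hω1', ?_⟩
  intro l l' hll
  refine ⟨?_, ?_, ?_⟩
  · intro h1
    exact hω2' l l' hll 0 0 (by simpa using h1.symm)
  · intro h1
    obtain ⟨κ, μ, h2⟩ := ht l
    obtain ⟨κ', μ', h3⟩ := ht l'
    -- inverse of `t l`
    have hinv : (a ^ (q * κ - κ) * h ^ (s * μ - μ)) * (a ^ κ * h ^ μ) = 1 := by
      have e1 : q * κ - κ + κ = q * κ := Nat.sub_add_cancel (Nat.le_mul_of_pos_left κ hq)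
      have e2 : s * μ - μ + μ = s * μ := Nat.sub_add_cancel (Nat.le_mul_of_pos_left μ hs)
      rw [mul_assoc, ← mul_assoc (h ^ (s * μ - μ)), ← (hcm.pow_pow κ (s * μ - μ)).eq, mul_assoc,
        ← pow_add, e2, ← mul_assoc, ← pow_add, e1, pow_mul, haq, one_pow, pow_mul, hhs, one_pow,
        one_mul]
    apply hω2' l l' hll (q * κ - κ + κ') (s * μ - μ + μ')
    have h4 : a ^ (q * κ - κ + κ') * h ^ (s * μ - μ + μ') =
        (a ^ (q * κ - κ) * h ^ (s * μ - μ)) * (a ^ κ' * h ^ μ') := by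
      rw [pow_add, pow_add, mul_assoc, mul_assoc, ← mul_assoc (a ^ κ'),
        (hcm.pow_pow κ' (s * μ - μ)).eq, mul_assoc]
    rw [h4, mul_smul, ← h3, ← h1, h2, ← mul_smul, hinv, one_smul]
  · intro h1
    obtain ⟨κ', μ', h3⟩ := ht l'
    apply hω2' l l' hll κ' μ'
    rw [← h3, ← h1]

end Pool.Agent.H86.NZ.DSL
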