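import Pool.Agent.H11.NZ.Targets

/-!
# Board nz_modules, PBX (adapted from module PB of ny_modules by helper87)
-/

set_option autoImplicit false

open Equiv (Perm)

namespace Pool.Agent.H86.NZ.PBX

open Pool.Agent.H11.NY Pool.Agent.H11.NZ

theorem closure_pair {L : Type} [Group L] [Finite L] {a h : L} (hc : a * h = h * a) {t : L}
    (ht : t ∈ Subgroup.closure ({a, h} : Set L)) : ∃ i j : ℕ, t = a ^ i * h ^ j := by
  have hcm : Commute a h := hc
  have hmul : ∀ i j i' j' : ℕ, (a ^ i * h ^ j) * (a ^ i' * h ^ j') = a ^ (i + i') * h ^ (j + j') := by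
    intro i j i' j'
    rw [pow_add, pow_add, mul_assoc, mul_assoc]
    congr 1
    rw [← mul_assoc, ← mul_assoc, (hcm.pow_pow i' j).eq]
  have hpow : ∀ (i j k : ℕ), (a ^ i * h ^ j) ^ k = a ^ (i * k) * h ^ (j * k) := by
    intro i j k
    rw [(hcm.pow_pow i j).mul_pow, ← pow_mul, ← pow_mul]
  refine Subgroup.closure_induction (p := fun t _ => ∃ i j : ℕ, t = a ^ i * h ^ j) ?_ ?_ ?_ ?_ ht
  · intro x hx
    rcases hx with rfl | hx
    · exact ⟨1, 0, by simp⟩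
    · rw [Set.mem_singleton_iff] at hx
      subst hx
      exact ⟨0, 1, by simp⟩
  · exact ⟨0, 0, by simp⟩
  · rintro x y _ _ ⟨i, j, rfl⟩ ⟨i', j', rfl⟩
    exact ⟨_, _, hmul i j i' j'⟩
  · rintro x _ ⟨i, j, rfl⟩
    refine ⟨i * (orderOf (a ^ i * h ^ j) - 1), j * (orderOf (a ^ i * h ^ j) - 1), ?_⟩
    rw [← hpow, inv_eq_iff_mul_eq_one, ← pow_succ', Nat.sub_add_cancel (orderOf_pos _),
      pow_orderOf_eq_one]

theorem cycles_card {Ω : Type} [Fintype Ω] [DecidableEq Ω] (σ : Perm Ω) {N s : ℕ} (hN : 0 < N)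
    (hσ : ∃ m : ℕ, 0 < m ∧ m ≤ N ∧ σ ^ m = 1) (hs : s * N ≤ σ.support.card) :
    s ≤ σ.cycleFactorsFinset.card := by
  obtain ⟨m, hm, hmN, hpow⟩ := hσ
  have h1 : σ.cycleType.sum ≤ Multiset.card σ.cycleType • N := by
    refine Multiset.sum_le_card_nsmul _ _ (fun x hx => ?_)
    have h2 := Equiv.Perm.dvd_of_mem_cycleType hx
    have h3 : orderOf σ ∣ m := orderOf_dvd_of_pow_eq_one hpow
    exact (Nat.le_of_dvd hm (h2.trans h3)).trans hmN
  rw [Equiv.Perm.sum_cycleType] at h1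
  have h4 : Multiset.card σ.cycleType = σ.cycleFactorsFinset.card := by
    rw [Equiv.Perm.cycleType_def, Multiset.card_map]
    rfl
  rw [h4, smul_eq_mul] at h1
  exact Nat.le_of_mul_le_mul_right (hs.trans h1) hN

theorem pf_pbx : T_B1X → T_BG → T_AC → T_AC0 → T_PBX := by
  intro hB1 hBG hAC hAC0 e
  obtain ⟨s, hs1, hs⟩ := Nat.exists_infinite_primes ((e ^ 6 + 1) * (e ^ 6 + 1) + 3)
  refine ⟨s * e ^ 2 + 6, ?_⟩
  intro L Ω _ _ _ _ ψ X hX K V _ _ _ _ _ ρ hV hab M hM hMk hnS hmin hnp hfam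
  have hψ : Function.Surjective ψ := by
    rw [← MonoidHom.range_eq_top, eq_top_iff, ← hX.2.1]
    exact Subgroup.map_le_range ψ X
  have hcard : 5 ≤ Fintype.card Ω := by
    obtain ⟨q, a, -, hP⟩ := hfam 2 Nat.prime_two
    obtain ⟨-, -, -, -, ha, hsup, -, -⟩ := hP
    have h1 := hsup 1 (by simpa using ha)
    have h2 := Finset.card_le_univ (ψ (a ^ 1) : Perm Ω).support
    omega
  obtain ⟨Z, r, hr, hZn, hZM, hZ, hcomZ, hrZ, hcen, hfaith⟩ :=
    hB1 L Ω ψ X hcard hX K V ρ hV hab M hM hMk hnS hmin hnp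
  obtain ⟨q, a, hqr, hP⟩ := hfam r hr
  obtain ⟨hq, hq5, hqe, haq, ha1, hsupa, hqK, halt⟩ := hP
  have he : 0 < e := by omega
  have hfinal : ∀ t : L, (∃ m : ℕ, 0 < m ∧ m ≤ e ^ 2 ∧ t ^ m = 1) →
      s * e ^ 2 + 6 ≤ (ψ t : Perm Ω).support.card →
      e ^ 6 * Nat.card {x : L // x ∈ M ∧ t * x * t⁻¹ * x⁻¹ ∈ Z} < Nat.card M := by
    rintro t ⟨m, hm, hme, hmt⟩ hsup
    have hcyc : s ≤ (ψ t : Perm Ω).cycleFactorsFinset.card := by
      refine cycles_card _ (N := e ^ 2) (pow_pos he 2) ⟨m, hm, hme, ?_⟩ ?_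
      · rw [← Subgroup.coe_pow, ← map_pow, hmt, map_one, Subgroup.coe_one]
      · omega
    have h3 := hBG L Ω ψ hψ M Z r hM hZn hZM hr hcomZ hrZ hfaith (e ^ 6 + 1) s (Nat.succ_pos _) hs
      (by omega) (by omega) t hcyc
    exact lt_of_le_of_lt (Nat.mul_le_mul_right _ (Nat.le_succ _)) h3
  rcases halt with hfix | ⟨p, h, hP, hpK, hRel⟩
  · obtain ⟨v, hv, hv1⟩ := hAC0 L K V ρ hV M Z r hM hZM hr hZ hcomZ hrZ hcen e q a hq hqe hqr hqK
      haq ha1 (by
        intro t ht ht1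
        have ht2 : ∃ j : ℕ, a ^ j = t := by
          rw [← mem_powers_iff_mem_zpowers] at ht
          exact ht
        obtain ⟨j, rfl⟩ := ht2
        refine hfinal _ ⟨q, hq.pos, ?_, ?_⟩ (hsupa j ht1)
        · nlinarith
        · rw [← pow_mul, mul_comm, pow_mul, haq, one_pow])
    exact hv (hfix v hv1)
  · obtain ⟨-, -, -, hp, hpe, -, hah, hhp, -, hha, hsup⟩ := hP
    refine hAC L K V ρ hV M Z r hM hZM hr hZ hcomZ hrZ hcen e q p a h hq hp hqe hpe hqr hqK hpK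
      haq ha1 hah hha hhp ?_ hRel
    intro t ht ht1
    obtain ⟨i, j, rfl⟩ := closure_pair hah ht
    have hcm : Commute a h := hah
    have hord : (a ^ i * h ^ j) ^ (q * p) = 1 := by
      rw [(hcm.pow_pow i j).mul_pow, ← pow_mul, ← pow_mul]
      have e1 : a ^ (i * (q * p)) = 1 := by
        rw [show i * (q * p) = q * (i * p) by ring, pow_mul, haq, one_pow]
      have e2 : h ^ (j * (q * p)) = 1 := by
        rcases hhp with h1 | ⟨rfl, h1⟩
        · rw [show j * (q * p) = p * (j * q) by ring, pow_mul, h1, one_pow]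
        · rw [show j * (p * p) = p * (p * j) by ring, pow_mul, h1, pow_mul, haq, one_pow]
      rw [e1, e2, one_mul]
    refine hfinal _ ⟨q * p, Nat.mul_pos hq.pos hp.pos, ?_, hord⟩ (hsup i j ht1)
    rw [sq]
    exact Nat.mul_le_mul hqe hpe

end Pool.Agent.H86.NZ.PBX
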